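import Mathlib

set_option autoImplicit false

namespace Pool.Agent.Results.MP_0b7070_lc.No

open Set Function Cardinal

universe u

/-- A graph with edge-coloring on the vertex set `V`, with colors in `C` and pseudocolor `e`. -/
structure GEC (V C : Type u) where
  κ : V → V → C
  e : C
  symm : ∀ x y, κ x y = κ y x
  eq_e : ∀ x y, κ x y = e ↔ x = y

variable {V C : Type u} (G : GEC V C)

def GEC.palette : Set C := {c | ∃ x y, x ≠ y ∧ G.κ x y = c}

def GEC.AbsHom : Prop :=
  ∀ (A : Set V) (f : A → V), (∀ x y, G.κ (f x) (f y) = G.κ x y) →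
    ∃ g : V ≃ V, (∀ x y, G.κ (g x) (g y) = G.κ x y) ∧ ∀ a : A, g a = f a

variable {G} (H : G.AbsHom)
include H

omit H in
theorem ne {α : Type*} {s : Set α} (h : ¬ s.Countable) : s.Nonempty :=
  s.eq_empty_or_nonempty.resolve_left fun o => h (o ▸ countable_empty)

theorem mono {S : Set V} {c : C} (h : S.Pairwise fun x y => G.κ x y = c) : S.Finite := by
  obtain ⟨M, a, m⟩ := zorn_subset_nonempty {S : Set V | S.Pairwise fun x y => G.κ x y = c}
    (fun s k l _ => ⟨⋃₀ s, (pairwise_sUnion l.directedOn).2 k, fun _ => subset_sUnion_of_mem⟩) S h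
  by_contra n
  have := (Infinite.mono a n).to_subtype
  obtain ⟨φ⟩ : Nonempty (Option M ≃ M) := Cardinal.eq.1 (by simp)
  obtain ⟨g, k, l⟩ := H M (fun x => φ (some x)) fun x y => by
    rcases eq_or_ne x y with rfl | d
    · rw [(G.eq_e _ _).2 rfl, (G.eq_e _ _).2 rfl]
    rw [m.prop x.2 y.2 (Subtype.coe_ne_coe.2 d),
      m.prop (φ _).2 (φ _).2 (Subtype.coe_ne_coe.2 (by simpa))]
  have d : ∀ y ∈ M, G.κ (g.symm (φ none)) y = c := fun y b => by
    rw [← k, g.apply_symm_apply, l ⟨y, b⟩]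
    exact m.prop (φ _).2 (φ _).2 (Subtype.coe_ne_coe.2 (by simp))
  have := l ⟨_, m.le_of_ge (y := insert (g.symm (φ none)) M) (pairwise_insert.2 ⟨m.prop,
    fun y b _ => ⟨d y b, G.symm _ _ ▸ d y b⟩⟩) (subset_insert _ _) (.inl rfl)⟩
  simp [Subtype.coe_inj] at this

theorem split (h : G.palette.Countable) {P : Set V} (p : ¬ P.Countable) : ∃ b, ∃ c : Bool → C,
    c false ≠ c true ∧ ∀ i, ¬ {y ∈ P | G.κ y b = c i}.Countable := by
  have : Countable (insert G.e G.palette : Set C) := (h.insert _).to_subtype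
  have f : ∀ {Q : Set V} (φ : V → C), (∀ y, φ y ∈ insert G.e G.palette) →
      (∀ c, {y ∈ Q | φ y = c}.Countable) → Q.Countable := fun φ a k =>
    (countable_iUnion fun c : (insert G.e G.palette : Set C) => k c).mono fun y l =>
      mem_iUnion.2 ⟨⟨_, a y⟩, And.intro l rfl⟩
  have m : ∀ y b, G.κ y b ∈ insert G.e G.palette := fun y b =>
    (eq_or_ne y b).elim (fun n => .inl ((G.eq_e _ _).2 n)) fun n => .inr ⟨y, b, n, rfl⟩
  by_contra! k
  choose c l using fun b => not_forall.1 (mt (f (G.κ · b) (m · b)) p)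
  obtain ⟨d, n⟩ := not_forall.1 (mt (f c fun b => by
    obtain ⟨y, -, o⟩ := ne (l b)
    exact o ▸ m y b) p)
  have o : ∀ b, {y ∈ P | G.κ y b ≠ c b}.Countable := fun b => f (G.κ · b) (m · b) fun a => by
    rcases eq_or_ne a (c b) with rfl | q
    · exact countable_empty.mono fun y r => r.1.2 r.2
    obtain ⟨_ | _, r⟩ := k b (fun i => cond i (c b) a) q
    exacts [r.mono fun y s => And.intro s.1.1 s.2, (l b r).elim]
  have : Std.Symm fun x y => x ≠ y ∧ G.κ x y = d := ⟨fun x y a => ⟨a.1.symm, G.symm _ _ ▸ a.2⟩⟩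
  obtain ⟨x, q, r⟩ := exists_seq_of_forall_finset_exists' (· ∈ {y ∈ P | c y = d})
    (fun x y => x ≠ y ∧ G.κ x y = d) fun s j => by
      by_contra! t
      refine n (((s.finite_toSet.countable.biUnion fun b _ => o b).union
        s.finite_toSet.countable).mono fun y u => ?_)
      obtain ⟨b, v, w⟩ := t y u
      exact (eq_or_ne b y).elim (fun a => .inr (a ▸ v)) fun a => .inl (mem_biUnion v
        ⟨u.1, fun z => w a ((G.symm _ _).trans (z.trans (j b v).2))⟩)
  exact infinite_range_of_injective (fun i j e => by_contra fun a => (r a).1 e) (mono H (c := d) (by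
    rintro _ ⟨i, rfl⟩ _ ⟨j, rfl⟩ a
    exact (r (mt (congrArg x) a)).2))

theorem lim (x b : ℕ → V) (h : ∀ n, ∀ k < n, G.κ (x (n + 1)) (b k) = G.κ (x n) (b k)) :
    ∃ y, ∀ k, G.κ y (b k) = G.κ (x (k + 1)) (b k) := by
  classical
  have : ∀ n, ∃ σ : V ≃ V, (∀ x y, G.κ (σ x) (σ y) = G.κ x y) ∧ σ (x (n + 1)) = x n ∧
      ∀ k < n, σ (b k) = b k := fun n => by
    have e : ∀ k < n, update id (x (n + 1)) (x n) (b k) = b k := fun k l => by
      rcases eq_or_ne (b k) (x (n + 1)) with a | a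
      · rw [a, update_self, ← a]
        exact (G.eq_e _ _).1 ((h n k l).symm.trans ((G.eq_e _ _).2 a.symm))
      · simp [a]
    obtain ⟨σ, a, c⟩ := H (insert (x (n + 1)) (b '' Iio n))
      (fun y => update id (x (n + 1)) (x n) y) (by
        rintro ⟨_, rfl | ⟨k, l, rfl⟩⟩ ⟨_, rfl | ⟨j, m, rfl⟩⟩
        · rw [(G.eq_e _ _).2 rfl, (G.eq_e _ _).2 rfl]
        · simp only [update_self, e j m, h n j m]
        · simp only [update_self, e k l, G.symm (b k), h n k l]
        · simp only [e k l, e j m])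
    exact ⟨σ, a, by simpa using c ⟨_, .inl rfl⟩, fun k l =>
      (c ⟨_, .inr ⟨k, l, rfl⟩⟩).trans (e k l)⟩
  choose σ s1 s2 s3 using this
  let g : ℕ → V → V := Nat.rec id fun n g => g ∘ σ n
  have g1 : ∀ n x y, G.κ (g n x) (g n y) = G.κ x y := fun n =>
    n.rec (fun _ _ => rfl) fun n k x y => (k _ _).trans (s1 n x y)
  have g2 : ∀ n, g n (x n) = x 0 := fun n => n.rec rfl fun n k => (congrArg (g n) (s2 n)).trans k
  have g3 : ∀ k n, k + 1 ≤ n → g n (b k) = g (k + 1) (b k) := fun k n l =>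
    l.rec rfl fun {n} l m => (congrArg (g n) (s3 n k l)).trans m
  clear_value g
  choose i hi using fun a : range b => a.2
  obtain ⟨f, f1, f2⟩ := H _ (fun a => g (i a + 1) a) fun a c => by
    rw [← hi a, ← hi c, ← g3 _ (i a + i c + 1) (by omega), ← g3 _ (i a + i c + 1) (by omega)]
    exact g1 _ _ _
  refine ⟨f.symm (x 0), fun k => ?_⟩
  obtain ⟨j, e, o⟩ : ∃ j, b j = b k ∧ f (b k) = g (j + 1) (b k) :=
    ⟨_, hi ⟨_, k, rfl⟩, f2 ⟨_, k, rfl⟩⟩
  rw [← f1, f.apply_symm_apply, o, ← e, ← g3 _ (j + k + 1) (by omega), e, g3 _ _ (by omega),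
    ← g2 (k + 1)]
  exact g1 _ _ _

omit H in
theorem result :
    (∀ (V C : Type u) (G : GEC V C), G.AbsHom → G.palette.Countable → #V ≤ ℵ₀ ∨ 𝔠 ≤ #V) ∧
    ((∀ α β : Cardinal.{u}, ℵ₀ ≤ α → α < β → β < 2 ^ α →
      ∃ (V C : Type u) (G : GEC V C), G.AbsHom ∧ #G.palette = α ∧ #V = β) →
      (𝔠 : Cardinal.{u}) = ℵ_ 1) := by
  have : ∀ (V C : Type u) (G : GEC V C), G.AbsHom → G.palette.Countable → #V ≤ ℵ₀ ∨ 𝔠 ≤ #V := by
    refine fun V C G H h => or_iff_not_imp_left.2 fun n => ?_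
    choose b c c1 c2 using fun P : {P : Set V // ¬ P.Countable} => split H h P.2
    let P : (ℕ → Bool) → ℕ → {P : Set V // ¬ P.Countable} := fun f => Nat.rec
      ⟨univ, mt (fun k => mk_le_aleph0_iff.2 (countable_univ_iff.1 k)) n⟩ fun n p => ⟨_, c2 p (f n)⟩
    have : ∀ f, ∃ y, ∀ n, y ∈ (P f n).1 := fun f => by
      choose x k using fun n => ne (P f n).2
      have a := antitone_nat_of_succ_le (f := fun n => (P f n).1) fun n y l => l.1
      obtain ⟨y, l⟩ := lim H x (fun n => b (P f n)) fun n j m =>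
        (a (by omega : j + 1 ≤ n + 1) (k (n + 1))).2.trans (a m (k n)).2.symm
      exact ⟨y, fun n => n.rec trivial fun n m => ⟨m, (l n).trans (k (n + 1)).2⟩⟩
    choose y k using this
    have i : Injective y := fun f g e => by
      have : ∀ n, P f n = P g n → f n = g n := fun n l => by
        have a : _ = c (P f n) _ := (k f (n + 1)).2
        have d : G.κ _ (b (P g n)) = c (P g n) _ := (k g (n + 1)).2
        replace a := a.symm.trans (e ▸ l ▸ d)
        have := c1 (P f n)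
        revert a
        cases f n <;> cases g n <;> grind
      have l : ∀ n, P f n = P g n := fun n => n.rec rfl fun n l => by
        simp only [P] at l ⊢
        rw [this n l, l]
      exact funext fun n => this n (l n)
    simpa using mk_le_of_injective (i.comp (Equiv.ulift.{u, 0}).injective)
  refine ⟨this, fun h => (aleph_one_le_continuum.eq_or_lt.resolve_right fun k => ?_).symm⟩
  obtain ⟨V, C, G, H, a, b⟩ := h ℵ₀ _ le_rfl aleph0_lt_aleph_one k
  exact (this V C G H (le_aleph0_iff_set_countable.1 a.le)).elim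
    (b ▸ aleph0_lt_aleph_one.not_ge) (b ▸ k.not_ge)

end Pool.Agent.Results.MP_0b7070_lc.No
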